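import Pool.Agent.Y385.TS.Est

/-!
The truncated simplices: the rays, the cones and the data.
-/

noncomputable section

namespace Pool.Agent.Y385.TS

open Pool.Agent.Helper774.KSing

variable {n : ℕ}

/-- homogeneous coordinates -/
def X (p : Fin (n + 1) → ℝ) : Fin (n + 2) → ℝ := Fin.cons (-∑ i, p i) p

theorem sum_X (p : Fin (n + 1) → ℝ) : ∑ k, X p k = 0 := by
  rw [Fin.sum_univ_succ]
  simp [X]

theorem X_inj {p : Fin (n + 1) → ℝ} (h : X p = 0) : p = 0 := by
  funext i
  have := congrFun h i.succ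
  simpa [X] using this

/-- the vector with pairing `X_k` -/
def E (k : Fin (n + 2)) (c : Fin (n + 1)) : ℤ :=
  (if k = c.succ then 1 else 0) - (if k = 0 then 1 else 0)

theorem sum_E (p : Fin (n + 1) → ℝ) (k : Fin (n + 2)) : ∑ c, p c * ((E k c : ℤ) : ℝ) = X p k := by
  refine Fin.cases ?_ (fun l => ?_) k
  · have : ∀ c : Fin (n + 1), (0 : Fin (n + 2)) ≠ c.succ := fun c => (Fin.succ_ne_zero c).symm
    simp [E, X, this]
  · simp [E, X, Fin.succ_inj]

/-- the ray with pairing `α X_k + β X_{k-1}` -/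
def ray (α β : ℤ) (k : Fin (n + 2)) (c : Fin (n + 1)) : ℤ := α * E k c + β * E (k - 1) c

theorem sum_ray (α β : ℤ) (p : Fin (n + 1) → ℝ) (k : Fin (n + 2)) :
    ∑ c, p c * ((ray α β k c : ℤ) : ℝ) = α * X p k + β * X p (k - 1) := by
  rw [← sum_E, ← sum_E, Finset.mul_sum, Finset.mul_sum, ← Finset.sum_add_distrib]
  refine Finset.sum_congr rfl fun c _ => ?_
  unfold ray
  push_cast
  ring

/-- the maximal cones -/
def Rm (a b : ℤ) (σ : Fin (n + 2) × Fin (n + 1)) : Matrix (Fin (n + 1)) (Fin (n + 1)) ℤ :=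
  Matrix.of fun l c => if c = σ.2 then ray (-b) (-1) σ.1 l else ray a 1 (σ.1.succAbove c) l

theorem Rm_self (a b : ℤ) (σ : Fin (n + 2) × Fin (n + 1)) (l : Fin (n + 1)) :
    Rm a b σ l σ.2 = ray (-b) (-1) σ.1 l := by
  simp [Rm]

theorem Rm_ne (a b : ℤ) (σ : Fin (n + 2) × Fin (n + 1)) (l c : Fin (n + 1)) (hc : c ≠ σ.2) :
    Rm a b σ l c = ray a 1 (σ.1.succAbove c) l := by
  simp [Rm, hc]

theorem rp_self (a b : ℤ) (σ : Fin (n + 2) × Fin (n + 1)) (p : Fin (n + 1) → ℝ) :
    rp p (Rm a b σ) σ.2 = sB b (X p) σ.1 := by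
  unfold rp
  simp only [Rm_self]
  rw [sum_ray]
  unfold sB
  push_cast
  ring

theorem rp_ne (a b : ℤ) (σ : Fin (n + 2) × Fin (n + 1)) (p : Fin (n + 1) → ℝ) (c : Fin (n + 1))
    (hc : c ≠ σ.2) : rp p (Rm a b σ) c = sA a (X p) (σ.1.succAbove c) := by
  unfold rp
  rw [Finset.sum_congr rfl fun l _ => by rw [Rm_ne a b σ l c hc]]
  rw [sum_ray]
  unfold sA
  push_cast
  ring

/-- The vertices of the cones satisfy the hypotheses of the estimates. -/
theorem vertex_data (a b : ℤ) (v : ℝ) (σ : Fin (n + 2) × Fin (n + 1)) (p : Fin (n + 1) → ℝ)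
    (h : ∀ j, rp p (Rm a b σ) j = v) :
    (∀ k, k ≠ σ.1 → k ≠ σ.1.succAbove σ.2 → sA a (X p) k = v) ∧ sB b (X p) σ.1 = v := by
  refine ⟨fun k hk1 hk2 => ?_, ?_⟩
  · obtain ⟨c, rfl⟩ := Fin.exists_succAbove_eq hk1
    have hc : c ≠ σ.2 := fun h => hk2 (by rw [h])
    rw [← rp_ne a b σ p c hc]
    exact h c
  · rw [← rp_self a b σ p]
    exact h σ.2

theorem det_ne (a b : ℤ) (hb : 1 < b) (hba : b ≤ a) (σ : Fin (n + 2) × Fin (n + 1)) :
    (Rm a b σ).det ≠ 0 := by
  intro h0
  obtain ⟨v, hv, hv0⟩ := Matrix.exists_vecMul_eq_zero_iff.2 h0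
  apply hv
  have h1 : ∀ j, rp (fun i => (v i : ℝ)) (Rm a b σ) j = 0 := by
    intro j
    rw [rp_cast, hv0]
    simp
  obtain ⟨h2, h3⟩ := vertex_data a b 0 σ _ h1
  have h4 := eq_zero_of (a : ℝ) (b : ℝ) (by exact_mod_cast hb) (by exact_mod_cast hba) _
    (sum_X _) σ.1 (σ.1.succAbove σ.2) (Fin.succAbove_ne _ _).symm h2 h3
  have h5 := X_inj h4
  funext i
  have := congrFun h5 i
  simpa using this

theorem one_add_one_ne (hn : 1 ≤ n) : (1 : Fin (n + 2)) + 1 ≠ 0 := by
  obtain ⟨m, rfl⟩ := Nat.exists_eq_add_of_le' hn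
  intro h
  have := congrArg Fin.val h
  rw [Fin.val_add] at this
  simp only [Fin.val_one, Fin.val_zero] at this
  rw [Nat.mod_eq_of_lt (by omega)] at this
  omega

theorem prim (hn : 1 ≤ n) (a b : ℤ) (σ : Fin (n + 2) × Fin (n + 1)) (j : Fin (n + 1)) :
    ∃ u, Matrix.vecMul u (Rm a b σ) j = 1 := by
  -- an integral vector with `X_{k-1} = ε`, `X_{k+1} = -ε`
  have key : ∀ (k : Fin (n + 2)) (ε : ℤ), ∃ u : Fin (n + 1) → ℤ,
      X (fun i => (u i : ℝ)) k = 0 ∧ X (fun i => (u i : ℝ)) (k - 1) = ε := by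
    intro k ε
    have h1 : k - 1 ≠ k + 1 := by
      intro h
      apply one_add_one_ne hn
      have h2 : k + 1 = k + (1 + 1) - 1 := by abel
      have h3 : k - 1 + 1 = k + 1 + 1 := by rw [h]
      rw [sub_add_cancel, add_assoc] at h3
      exact (left_eq_add.1 h3)
    have h2 : k ≠ k - 1 := by
      intro h
      have h3 : k + 1 = k := by
        nth_rewrite 1 [h]
        exact sub_add_cancel k 1
      exact one_ne_zero (left_eq_add.1 h3.symm)
    have h3 : k ≠ k + 1 := by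
      intro h
      exact one_ne_zero (left_eq_add.1 h)
    let x : Fin (n + 2) → ℤ := Pi.single (k - 1) ε - Pi.single (k + 1) ε
    have hx : ∑ l, x l = 0 := by
      simp [x, Finset.sum_sub_distrib]
    have hX : ∀ l, X (fun i : Fin (n + 1) => ((Fin.tail x i : ℤ) : ℝ)) l = x l := by
      intro l
      refine Fin.cases ?_ (fun l' => ?_) l
      · rw [Fin.sum_univ_succ] at hx
        have : x 0 = -∑ i : Fin (n + 1), Fin.tail x i := by
          unfold Fin.tail
          linarith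
        rw [this]
        simp [X]
      · simp [X, Fin.tail]
    refine ⟨Fin.tail x, ?_, ?_⟩
    · rw [hX]
      simp only [x, Pi.sub_apply, Pi.single_eq_of_ne h2, Pi.single_eq_of_ne h3, sub_zero, Int.cast_zero]
    · rw [hX]
      simp [x, Pi.single_eq_of_ne h1]
  by_cases hj : j = σ.2
  · obtain ⟨u, h1, h2⟩ := key σ.1 (-1)
    refine ⟨u, ?_⟩
    have h3 := rp_self a b σ (fun i => (u i : ℝ))
    rw [rp_cast] at h3
    unfold sB at h3
    rw [h1, h2] at h3
    rw [hj]
    have h4 : ((Matrix.vecMul u (Rm a b σ) σ.2 : ℤ) : ℝ) = ((1 : ℤ) : ℝ) := by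
      rw [h3]; push_cast; ring
    exact_mod_cast h4
  · obtain ⟨u, h1, h2⟩ := key (σ.1.succAbove j) 1
    refine ⟨u, ?_⟩
    have h3 := rp_ne a b σ (fun i => (u i : ℝ)) j hj
    rw [rp_cast] at h3
    unfold sA at h3
    rw [h1, h2] at h3
    have h4 : ((Matrix.vecMul u (Rm a b σ) j : ℤ) : ℝ) = ((1 : ℤ) : ℝ) := by
      rw [h3]; push_cast; ring
    exact_mod_cast h4

/-- The data of the truncated simplex with parameter `m`. -/
theorem exists_tdata (hn : 1 ≤ n) (m : ℕ) (hm : 7 ≤ m) :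
    ∃ D : SData (n + 1), ∃ e : D.ι ≃ Fin (n + 2) × Fin (n + 1),
      ∀ σ, D.R σ = Rm ((n + 1) * m) (m + 3) (e σ) := by
  have hm' : (7 : ℝ) ≤ m := by exact_mod_cast hm
  have hba : ((m : ℤ) + 3) ≤ ((n : ℤ) + 1) * m := by
    have h1 : (1 : ℤ) ≤ n := by exact_mod_cast hn
    have h2 : (7 : ℤ) ≤ m := by exact_mod_cast hm
    nlinarith
  have hV : ∀ (σ : Fin (n + 2) × Fin (n + 1)) (p : Fin (n + 1) → ℝ),
      (∀ j, rp p (Rm ((n + 1) * m) (m + 3) σ) j = -1) → _ := fun σ p hp =>
    vertex hn (m : ℝ) hm' (X p) (sum_X p) σ.1 (σ.1.succAbove σ.2) (Fin.succAbove_ne _ _).symm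
      (by
        have h := (vertex_data _ _ (-1) σ p hp).1
        push_cast at h
        exact h)
      (by
        have h := (vertex_data _ _ (-1) σ p hp).2
        push_cast at h
        exact h)
  obtain ⟨D, _, e, he⟩ := exists_data (Nat.succ_pos n) (Rm (n := n) ((n + 1) * m) (m + 3))
    (det_ne _ _ (by omega) hba) (prim hn _ _)
    (by
      intro σ p hp τ c
      obtain ⟨-, h2, h3, h4, h5, h6⟩ := hV σ p hp
      obtain ⟨h7, h8⟩ := vertex_data _ _ (-1) σ p hp
      by_cases hc : c = τ.2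
      · subst hc
        have e1 := rp_self ((n + 1) * m) (m + 3) τ p
        push_cast at e1
        rw [e1]
        by_cases hi : τ.1 = σ.1
        · rw [hi]
          push_cast at h8
          rw [h8]
          refine ⟨le_refl _, fun _ => ⟨σ.2, fun i => ?_⟩⟩
          rw [Rm_self, Rm_self, hi]
        · have h9 := (h6 τ.1 hi).1
          exact ⟨h9.le, fun h => absurd h h9.ne'⟩
      · have e1 := rp_ne ((n + 1) * m) (m + 3) τ p c hc
        push_cast at e1
        rw [e1]
        by_cases hi : τ.1.succAbove c = σ.1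
        · rw [hi]
          exact ⟨h3.le, fun h => absurd h h3.ne'⟩
        · by_cases hj : τ.1.succAbove c = σ.1.succAbove σ.2
          · rw [hj]
            exact ⟨h5.le, fun h => absurd h h5.ne'⟩
          · have h9 := h7 _ hi hj
            push_cast at h9
            rw [h9]
            refine ⟨le_refl _, fun _ => ?_⟩
            obtain ⟨c', hc'⟩ := Fin.exists_succAbove_eq hi
            have hc2 : c' ≠ σ.2 := fun h => hj (by rw [← hc', h])
            refine ⟨c', fun i => ?_⟩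
            rw [Rm_ne _ _ _ _ _ hc, Rm_ne _ _ _ _ _ hc2, hc'])
    (by
      intro σ c
      by_cases hc : c = σ.2
      · obtain ⟨c', hc'⟩ := Fin.exists_succAbove_eq
          (show σ.1 ≠ σ.1.succAbove σ.2 from (Fin.succAbove_ne _ _).symm)
        refine ⟨(σ.1.succAbove σ.2, c'), fun p hp => ?_⟩
        obtain ⟨-, h2, h3, h4, h5, h6⟩ := hV _ p hp
        obtain ⟨h7, h8⟩ := vertex_data _ _ (-1) _ p hp
        simp only [hc'] at h2 h3 h4 h5 h6 h7 h8
        refine ⟨fun j hj => ?_, ?_⟩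
        · rw [hc] at hj
          have e1 := rp_ne ((n + 1) * m) (m + 3) σ p j hj
          rw [e1]
          exact h7 _ (fun h => hj (Fin.succAbove_right_injective h)) (Fin.succAbove_ne _ _)
        · subst hc
          have e1 := rp_self ((n + 1) * m) (m + 3) σ p
          push_cast at e1
          rw [e1]
          exact (h6 σ.1 (Fin.succAbove_ne _ _).symm).1.ne'
      · refine ⟨(σ.1, c), fun p hp => ?_⟩
        obtain ⟨-, h2, h3, h4, h5, h6⟩ := hV _ p hp
        obtain ⟨h7, h8⟩ := vertex_data _ _ (-1) _ p hp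
        simp only at h2 h3 h4 h5 h6 h7 h8
        refine ⟨fun j hj => ?_, ?_⟩
        · by_cases hj2 : j = σ.2
          · subst hj2
            rw [rp_self]
            exact h8
          · rw [rp_ne _ _ _ _ _ hj2]
            exact h7 _ (Fin.succAbove_ne _ _) (fun h => hj (Fin.succAbove_right_injective h))
        · have e1 := rp_ne ((n + 1) * m) (m + 3) σ p c hc
          push_cast at e1
          rw [e1]
          exact h5.ne')
  exact ⟨D, e, he⟩

end Pool.Agent.Y385.TS
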