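import Pool.Agent.Y385.TS.Gen

/-!
The truncated simplices: estimates at the vertices.
-/

noncomputable section

namespace Pool.Agent.Y385.TS

open Pool.Agent.Helper774.KSing

/-- values of the rays `a e_k + e_{k-1}` -/
def sA {n : ℕ} (a : ℝ) (x : Fin (n + 2) → ℝ) (k : Fin (n + 2)) : ℝ := a * x k + x (k - 1)

/-- values of the rays `-b e_k - e_{k-1}` -/
def sB {n : ℕ} (b : ℝ) (x : Fin (n + 2) → ℝ) (k : Fin (n + 2)) : ℝ := -b * x k - x (k - 1)

variable {n : ℕ}

theorem sum_sA (a : ℝ) (x : Fin (n + 2) → ℝ) (hx : ∑ k, x k = 0) : ∑ k, sA a x k = 0 := by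
  unfold sA
  rw [Finset.sum_add_distrib, ← Finset.mul_sum, hx]
  have h : ∑ k : Fin (n + 2), x (k - 1) = ∑ k, x k := (Equiv.subRight (1 : Fin (n + 2))).sum_comp x
  rw [h, hx]
  ring

theorem abs_x_le (a : ℝ) (ha : 1 < a) (x : Fin (n + 2) → ℝ) (S : ℝ) (h : ∀ k, |sA a x k| ≤ S)
    (k : Fin (n + 2)) : (a - 1) * |x k| ≤ S := by
  obtain ⟨k0, hk0⟩ := Finite.exists_max (fun k : Fin (n + 2) => |x k|)
  have h1 : a * |x k0| ≤ S + |x k0| := by
    have h2 : a * x k0 = sA a x k0 - x (k0 - 1) := by unfold sA; ring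
    calc a * |x k0| = |a * x k0| := by rw [abs_mul, abs_of_pos (show 0 < a by linarith)]
      _ = |sA a x k0 - x (k0 - 1)| := by rw [h2]
      _ ≤ |sA a x k0| + |x (k0 - 1)| := abs_sub _ _
      _ ≤ S + |x k0| := add_le_add (h k0) (hk0 _)
  have h3 := hk0 k
  have h4 : (a - 1) * |x k| ≤ (a - 1) * |x k0| := mul_le_mul_of_nonneg_left h3 (by linarith)
  linarith

theorem comb_le (a b : ℝ) (hb : 1 ≤ b) (hba : b ≤ a) (ha : 1 < a) (x : Fin (n + 2) → ℝ) (S : ℝ)
    (h : ∀ k, |sA a x k| ≤ S) (k : Fin (n + 2)) : |a * sB b x k + b * sA a x k| ≤ S := by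
  have h1 : a * sB b x k + b * sA a x k = -((a - b) * x (k - 1)) := by
    unfold sA sB; ring
  rw [h1, abs_neg, abs_mul, abs_of_nonneg (show 0 ≤ a - b by linarith)]
  have h2 := abs_x_le a ha x S h (k - 1)
  have h3 : (a - b) * |x (k - 1)| ≤ (a - 1) * |x (k - 1)| :=
    mul_le_mul_of_nonneg_right (by linarith) (abs_nonneg _)
  linarith

theorem sum_two (f : Fin (n + 2) → ℝ) (i j : Fin (n + 2)) (hij : i ≠ j) (v : ℝ)
    (h : ∀ k, k ≠ i → k ≠ j → f k = v) : ∑ k, f k = f i + f j + n * v := by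
  rw [← Finset.add_sum_erase _ _ (Finset.mem_univ i),
    ← Finset.add_sum_erase _ _ (Finset.mem_erase.2 ⟨hij.symm, Finset.mem_univ j⟩)]
  have h1 : ∑ k ∈ (Finset.univ.erase i).erase j, f k = n * v := by
    rw [Finset.sum_congr rfl (g := fun _ => v)]
    · rw [Finset.sum_const, Finset.card_erase_of_mem (Finset.mem_erase.2 ⟨hij.symm, Finset.mem_univ j⟩),
        Finset.card_erase_of_mem (Finset.mem_univ i), Finset.card_univ, Fintype.card_fin, nsmul_eq_mul]
      congr 1
    · intro k hk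
      rw [Finset.mem_erase, Finset.mem_erase] at hk
      exact h k hk.2.1 hk.1
  rw [h1]
  ring

/-- Nondegeneracy of the cones. -/
theorem eq_zero_of (a b : ℝ) (hb : 1 < b) (hba : b ≤ a) (x : Fin (n + 2) → ℝ) (hx : ∑ k, x k = 0)
    (i j : Fin (n + 2)) (hij : i ≠ j) (h : ∀ k, k ≠ i → k ≠ j → sA a x k = 0) (hi : sB b x i = 0) :
    x = 0 := by
  have hs := sum_sA a x hx
  rw [sum_two _ i j hij 0 h] at hs
  have hj : sA a x j = - sA a x i := by linarith
  have hS : ∀ k, |sA a x k| ≤ |sA a x i| := by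
    intro k
    by_cases h1 : k = i
    · rw [h1]
    · by_cases h2 : k = j
      · rw [h2, hj, abs_neg]
      · rw [h k h1 h2, abs_zero]; exact abs_nonneg _
  have h3 := comb_le a b hb.le hba (by linarith) x _ hS i
  rw [hi, mul_zero, zero_add, abs_mul, abs_of_pos (show 0 < b by linarith)] at h3
  have h4 : |sA a x i| = 0 := by
    have := abs_nonneg (sA a x i)
    nlinarith
  rw [h4] at hS
  funext k
  have h5 := abs_x_le a (by linarith) x 0 hS k
  have h6 : |x k| = 0 := by
    have := abs_nonneg (x k)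
    nlinarith
  exact abs_eq_zero.1 h6

/-- The estimates at the vertices of the truncated simplex, `d = n + 1`, `a = d m`, `b = m + 3`. -/
theorem vertex (hn : 1 ≤ n) (m : ℝ) (hm : 7 ≤ m) (x : Fin (n + 2) → ℝ) (hx : ∑ k, x k = 0)
    (i j : Fin (n + 2)) (hij : i ≠ j)
    (h : ∀ k, k ≠ i → k ≠ j → sA ((n + 1) * m) x k = -1) (hi : sB (m + 3) x i = -1) :
    (((n : ℝ) + 1) * (m - 2) ≤ (m + 3) * sA ((n + 1) * m) x i) ∧
    (sA ((n + 1) * m) x i < n + 1) ∧ (-1 < sA ((n + 1) * m) x i) ∧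
    (sA ((n + 1) * m) x j < n + 1) ∧ (-1 < sA ((n + 1) * m) x j) ∧
    (∀ k, k ≠ i → -1 < sB (m + 3) x k ∧ sB (m + 3) x k < n + 1) := by
  have hn' : (1 : ℝ) ≤ n := by exact_mod_cast hn
  set d : ℝ := (n : ℝ) + 1 with hd
  have hd2 : 2 ≤ d := by linarith
  set a : ℝ := d * m with ha
  have hba : m + 3 ≤ a := by nlinarith
  have hs := sum_sA a x hx
  rw [sum_two _ i j hij (-1) h] at hs
  set si := sA a x i with hsi
  set sj := sA a x j with hsj
  have hj : sj = d - 1 - si := by linarith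
  have hS : ∀ k, |sA a x k| ≤ d + |si| := by
    intro k
    have h0 := abs_nonneg si
    by_cases h1 : k = i
    · rw [h1]; linarith
    · by_cases h2 : k = j
      · rw [h2, ← hsj, hj]
        have h3 : |d - 1 - si| ≤ |d - 1| + |si| := abs_sub _ _
        rw [abs_of_nonneg (by linarith : (0 : ℝ) ≤ d - 1)] at h3
        linarith
      · rw [h k h1 h2, abs_neg, abs_one]; linarith
  have h3 := comb_le a (m + 3) (by linarith) hba (by linarith) x _ hS i
  rw [hi, ← hsi] at h3
  have h4 : (m + 3) * |si| ≤ a + d + |si| := by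
    have e : (m + 3) * si = (a * (-1) + (m + 3) * si) + a := by ring
    calc (m + 3) * |si| = |(m + 3) * si| := by rw [abs_mul, abs_of_pos (show 0 < m + 3 by linarith)]
      _ = |(a * (-1) + (m + 3) * si) + a| := by rw [← e]
      _ ≤ |a * (-1) + (m + 3) * si| + |a| := abs_add_le _ _
      _ ≤ a + d + |si| := by rw [abs_of_pos (by linarith : 0 < a)]; linarith
  have h5 : |si| ≤ d := by nlinarith
  have hS' : ∀ k, |sA a x k| ≤ 2 * d := fun k => (hS k).trans (by linarith)
  have hc := comb_le a (m + 3) (by linarith) hba (by linarith) x _ hS'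
  have h6 := abs_le.1 (hc i)
  rw [hi, ← hsi] at h6
  obtain ⟨h7, h8⟩ := h6
  have h9 : d * (m - 2) ≤ (m + 3) * si := by nlinarith
  have h10 : (m + 3) * si ≤ d * (m + 2) := by nlinarith
  have h11 : si < d := by
    by_contra hcon
    push Not at hcon
    nlinarith
  have h12 : 0 < si := by
    by_contra hcon
    push Not at hcon
    nlinarith
  refine ⟨h9, h11, by linarith, by linarith, by linarith, fun k hk => ?_⟩
  obtain ⟨h13, h14⟩ := abs_le.1 (hc k)
  have ha0 : 0 < a := by linarith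
  by_cases hkj : k = j
  · rw [hkj, ← hsj] at h13 h14
    rw [hkj]
    constructor
    · by_contra hcon
      push Not at hcon
      have : a * sB (m + 3) x j ≤ a * (-1) := mul_le_mul_of_nonneg_left hcon ha0.le
      nlinarith
    · by_contra hcon
      push Not at hcon
      have : a * d ≤ a * sB (m + 3) x j := mul_le_mul_of_nonneg_left hcon ha0.le
      nlinarith
  · rw [h k hk hkj] at h13 h14
    constructor
    · by_contra hcon
      push Not at hcon
      have : a * sB (m + 3) x k ≤ a * (-1) := mul_le_mul_of_nonneg_left hcon ha0.le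
      nlinarith
    · by_contra hcon
      push Not at hcon
      have : a * d ≤ a * sB (m + 3) x k := mul_le_mul_of_nonneg_left hcon ha0.le
      nlinarith

end Pool.Agent.Y385.TS
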