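import Pool.Agent.Y385.TS.Data

/-!
The truncated simplices: barycentre, alpha invariant.
-/

open scoped ENNReal
open MeasureTheory

noncomputable section

namespace Pool.Agent.Y385.TS

open Pool.Agent.Helper774.KSing

variable {n : ℕ}

/-- cyclic shift of the homogeneous coordinates by `t` -/
def shf (t : Fin (n + 2)) : (Fin (n + 1) → ℝ) →ₗ[ℝ] (Fin (n + 1) → ℝ) where
  toFun p := fun i => X p (i.succ - t)
  map_add' p q := by
    funext i
    show X (p + q) (i.succ - t) = X p (i.succ - t) + X q (i.succ - t)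
    refine Fin.cases ?_ (fun l => ?_) (i.succ - t)
    · simp only [X, Fin.cons_zero, Pi.add_apply, Finset.sum_add_distrib]
      ring
    · simp [X]
  map_smul' c p := by
    funext i
    show X (c • p) (i.succ - t) = c * X p (i.succ - t)
    refine Fin.cases ?_ (fun l => ?_) (i.succ - t)
    · simp only [X, Fin.cons_zero, Pi.smul_apply, smul_eq_mul, ← Finset.mul_sum]
      ring
    · simp [X]

theorem X_shf (t : Fin (n + 2)) (p : Fin (n + 1) → ℝ) (k : Fin (n + 2)) :
    X (shf t p) k = X p (k - t) := by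
  refine Fin.cases ?_ (fun l => ?_) k
  · have h1 : ∑ k : Fin (n + 2), X p (k - t) = 0 :=
      ((Equiv.subRight t).sum_comp (X p)).trans (sum_X p)
    rw [Fin.sum_univ_succ] at h1
    have h2 : X (shf t p) 0 = -∑ i : Fin (n + 1), X p (i.succ - t) := by
      simp [X, shf]
    rw [h2]
    linarith
  · simp [X, shf]

theorem X_eq {p q : Fin (n + 1) → ℝ} (h : X p = X q) : p = q := by
  funext i
  have := congrFun h i.succ
  simpa [X] using this

theorem shf_comp (s t : Fin (n + 2)) : (shf s).comp (shf (n := n) t) = shf (s + t) := by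
  apply LinearMap.ext
  intro p
  apply X_eq
  funext k
  rw [LinearMap.comp_apply, X_shf, X_shf, X_shf]
  congr 1
  abel

theorem shf_zero : shf (n := n) 0 = LinearMap.id := by
  apply LinearMap.ext
  intro p
  apply X_eq
  funext k
  rw [X_shf, sub_zero, LinearMap.id_apply]

theorem shf_pow (k : ℕ) : shf (n := n) 1 ^ k = shf (k • (1 : Fin (n + 2))) := by
  induction k with
  | zero => rw [pow_zero, zero_nsmul, shf_zero]; rfl
  | succ k ih =>
    rw [pow_succ, ih]
    show (shf _).comp (shf _) = _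
    rw [shf_comp, succ_nsmul]

theorem shf_det : |(shf (n := n) 1).det| = 1 := by
  have h1 : shf (n := n) 1 ^ (n + 2) = LinearMap.id := by
    rw [shf_pow]
    have h : (n + 2) • (1 : Fin (n + 2)) = 0 := by
      have h1 := card_nsmul_eq_zero (x := (1 : Fin (n + 2)))
      rwa [Fintype.card_fin] at h1
    rw [h, shf_zero]
  have h2 : (shf (n := n) 1).det ^ (n + 2) = 1 := by
    rw [← map_pow, h1, LinearMap.det_id]
  have h3 : |(shf (n := n) 1).det| ^ (n + 2) = 1 := by
    rw [← abs_pow, h2, abs_one]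
  exact (pow_eq_one_iff_of_nonneg (abs_nonneg _) (by omega)).1 h3

theorem mem_P (a b : ℤ) (D : SData (n + 1)) (e : D.ι ≃ Fin (n + 2) × Fin (n + 1))
    (he : ∀ σ, D.R σ = Rm a b (e σ)) (hn : 1 ≤ n) (p : Fin (n + 1) → ℝ) :
    p ∈ D.P ↔ ∀ k, -1 ≤ sA a (X p) k ∧ -1 ≤ sB b (X p) k := by
  constructor
  · intro h k
    constructor
    · -- choose a cone with the ray
      obtain ⟨c0, hc0⟩ : ∃ c0 : Fin (n + 1), c0 ≠ 0 := ⟨Fin.last n, by
        intro h0
        have := congrArg Fin.val h0
        simp at this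
        omega⟩
      obtain ⟨i, hi⟩ : ∃ i : Fin (n + 2), ∃ c : Fin (n + 1), c ≠ (if c = 0 then c0 else 0) ∧
          i.succAbove c = k := by
        obtain ⟨c, hc⟩ := Fin.exists_succAbove_eq (show k ≠ k + 1 from fun h => by
          exact one_ne_zero (left_eq_add.1 h))
        refine ⟨k + 1, c, ?_, hc⟩
        split_ifs with h0
        · rw [h0]; exact hc0.symm
        · exact h0
      obtain ⟨c, hc1, hc2⟩ := hi
      have h1 := h (e.symm (i, if c = 0 then c0 else 0)) c
      have h2 := rp_ne a b (i, if c = 0 then c0 else 0) p c hc1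
      rw [he, Equiv.apply_symm_apply] at h1
      unfold rp at h2
      rw [h2] at h1
      simp only [hc2] at h1
      exact h1
    · have h1 := h (e.symm (k, 0)) 0
      have h2 := rp_self a b (k, 0) p
      rw [he, Equiv.apply_symm_apply] at h1
      unfold rp at h2
      rw [h2] at h1
      exact h1
  · intro h σ j
    rw [he]
    by_cases hj : j = (e σ).2
    · have h2 := rp_self a b (e σ) p
      unfold rp at h2
      rw [hj, h2]
      exact (h _).2
    · have h2 := rp_ne a b (e σ) p j hj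
      unfold rp at h2
      rw [h2]
      exact (h _).1

theorem shf_mem (a b : ℤ) (D : SData (n + 1)) (e : D.ι ≃ Fin (n + 2) × Fin (n + 1))
    (he : ∀ σ, D.R σ = Rm a b (e σ)) (hn : 1 ≤ n) (t : Fin (n + 2)) (p : Fin (n + 1) → ℝ)
    (hp : p ∈ D.P) : shf t p ∈ D.P := by
  rw [mem_P a b D e he hn] at hp ⊢
  intro k
  have h1 : k - 1 - t = k - t - 1 := by abel
  unfold sA sB at hp ⊢
  rw [X_shf, X_shf, h1]
  exact hp (k - t)

theorem bary (a b : ℤ) (D : SData (n + 1)) (e : D.ι ≃ Fin (n + 2) × Fin (n + 1))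
    (he : ∀ σ, D.R σ = Rm a b (e σ)) (hn : 1 ≤ n) (i : Fin (n + 1)) : ∫ p in D.P, p i = 0 := by
  have hc : IsCompact D.P := Metric.isCompact_of_isClosed_isBounded D.P_closed (P_bounded D)
  have I : ∀ i, IntegrableOn (fun p : Fin (n + 1) → ℝ => p i) D.P := fun i =>
    (continuous_apply i).continuousOn.integrableOn_compact hc
  let M : Matrix (Fin (n + 1)) (Fin (n + 1)) ℝ := LinearMap.toMatrix' (shf 1)
  let N : Matrix (Fin (n + 1)) (Fin (n + 1)) ℝ := LinearMap.toMatrix' (shf (-1))
  have hMN : M * N = 1 := by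
    rw [← LinearMap.toMatrix'_comp, shf_comp, add_neg_cancel, shf_zero, LinearMap.toMatrix'_id]
  have hNM : N * M = 1 := by
    rw [← LinearMap.toMatrix'_comp, shf_comp, neg_add_cancel, shf_zero, LinearMap.toMatrix'_id]
  have hdet : |M.det| = 1 := by
    rw [LinearMap.det_toMatrix']
    exact shf_det
  have hMv : ∀ p, M.mulVec p = shf 1 p := fun p => LinearMap.toMatrix'_mulVec _ _
  have hNv : ∀ p, N.mulVec p = shf (-1) p := fun p => LinearMap.toMatrix'_mulVec _ _
  have key := lin_inv M N hMN hNM hdet D.P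
    (fun p hp => by rw [hMv]; exact shf_mem a b D e he hn 1 p hp)
    (fun p hp => by rw [hNv]; exact shf_mem a b D e he hn (-1) p hp)
  -- the barycentre
  let y : Fin (n + 1) → ℝ := fun i => ∫ p in D.P, p i
  have hX : ∀ k, ∫ p in D.P, X p k = X y k := by
    intro k
    refine Fin.cases ?_ (fun l => ?_) k
    · have h1 : ∀ p : Fin (n + 1) → ℝ, X p 0 = -∑ i, p i := fun p => rfl
      simp only [h1]
      rw [integral_neg, integral_finsetSum _ (fun i _ => I i)]
    · rfl
  have hinv : ∀ l : Fin (n + 1), X y l.succ = X y (l.succ - 1) := by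
    intro l
    have h1 := key (fun p => p l)
    simp only [hMv] at h1
    have h2 : ∀ p : Fin (n + 1) → ℝ, shf 1 p l = X p (l.succ - 1) := fun p => rfl
    simp only [h2] at h1
    rw [hX] at h1
    rw [h1]
    rfl
  have hconst : ∀ k, X y k = X y 0 := by
    intro k
    induction k using Fin.induction with
    | zero => rfl
    | succ i ih =>
      rw [hinv, ← Fin.coeSucc_eq_succ, add_sub_cancel_right]
      exact ih
  have hs := sum_X y
  rw [Finset.sum_congr rfl fun k _ => hconst k, Finset.sum_const, Finset.card_univ,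
    Fintype.card_fin, nsmul_eq_mul] at hs
  have h0 : X y 0 = 0 := by
    rcases mul_eq_zero.1 hs with h | h
    · exfalso
      have : (((n + 2 : ℕ)) : ℝ) ≠ 0 := by positivity
      exact this h
    · exact h
  have := hconst i.succ
  rw [h0] at this
  exact this

/-- In every dimension `n + 1 ≥ 2` there are K-semistable klt Fano varieties whose alpha invariant is larger
than `1 / (n + 2)` and at most `1 / (1 + (n + 1)(m - 2)/(m + 3))`. -/
theorem exists_mem (hn : 1 ≤ n) (m : ℕ) (hm : 7 ≤ m) :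
    ∃ M : ℝ, ENNReal.ofReal (1 / (1 + M)) ∈ alphaSet (n + 1) ∧ M < n + 1 ∧
      ((n : ℝ) + 1) * (m - 2) ≤ (m + 3) * M ∧ 0 ≤ M := by
  obtain ⟨D, e, he⟩ := exists_tdata hn m hm
  have hm' : (7 : ℝ) ≤ m := by exact_mod_cast hm
  have hr : (0 : ℝ) < D.r := by exact_mod_cast D.r_pos
  obtain ⟨M, hM, hmax, σ, τ, j, hatt⟩ := exists_good D (bary _ _ D e he hn)
  -- vertices
  have hv : ∀ σ, ∀ j, rp (fun i => (D.w σ i : ℝ) / D.r) (Rm ((n + 1) * m) (m + 3) (e σ)) j = -1 := by
    intro σ j
    have h1 : rp (fun i => (D.w σ i : ℝ) / D.r) (D.R σ) j =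
        ((Matrix.vecMul (D.w σ) (D.R σ) j : ℤ) : ℝ) / D.r := by
      rw [← rp_cast, rp, rp, Finset.sum_div]
      exact Finset.sum_congr rfl fun i _ => by ring
    rw [← he, h1, D.w_self, div_eq_iff hr.ne']
    push_cast
    ring
  have hpair : ∀ σ τ j, ((Matrix.vecMul (D.w σ) (D.R τ) j : ℤ) : ℝ) =
      rp (fun i => (D.w σ i : ℝ) / D.r) (Rm ((n + 1) * m) (m + 3) (e τ)) j * D.r := by
    intro σ τ j
    rw [← rp_cast, ← he, rp, rp, Finset.sum_mul]
    refine Finset.sum_congr rfl fun i _ => ?_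
    field_simp
  have hV : ∀ σ : D.ι, _ := fun σ =>
    vertex hn (m : ℝ) hm' (X fun i => (D.w σ i : ℝ) / D.r) (sum_X _) (e σ).1
      ((e σ).1.succAbove (e σ).2) (Fin.succAbove_ne _ _).symm
      (by
        have h := (vertex_data _ _ (-1) (e σ) _ (hv σ)).1
        push_cast at h
        exact h)
      (by
        have h := (vertex_data _ _ (-1) (e σ) _ (hv σ)).2
        push_cast at h
        exact h)
  have hlow : ((n : ℝ) + 1) * (m - 2) ≤ (m + 3) * M := by
    obtain ⟨h1, -⟩ := hV σ
    -- the ray `A_i`, `i = (e σ).1`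
    obtain ⟨c, hc⟩ := Fin.exists_succAbove_eq
      (show (e σ).1 ≠ (e σ).1 + 1 from fun h => one_ne_zero (left_eq_add.1 h))
    obtain ⟨c0, hc0⟩ : ∃ c0 : Fin (n + 1), c ≠ c0 := by
      by_cases h0 : c = 0
      · refine ⟨Fin.last n, fun h2 => ?_⟩
        have := congrArg Fin.val (h0.symm.trans h2)
        simp at this
        omega
      · exact ⟨0, h0⟩
    have h2 := hmax σ (e.symm ((e σ).1 + 1, c0)) c
    rw [hpair, Equiv.apply_symm_apply, rp_ne _ _ _ _ _ hc0] at h2
    simp only [hc] at h2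
    have h3 := le_of_mul_le_mul_right h2 hr
    push_cast at h3
    have h4 : (0 : ℝ) ≤ (m : ℝ) + 3 := by positivity
    exact h1.trans (mul_le_mul_of_nonneg_left h3 h4)
  have hM0 : 0 ≤ M := by
    by_contra hcon
    push Not at hcon
    have h1 : (0 : ℝ) ≤ ((n : ℝ) + 1) * (m - 2) := mul_nonneg (by positivity) (by linarith)
    nlinarith
  refine ⟨M, good_mem D M hM0 hM, ?_, hlow, hM0⟩
  -- upper bound
  have hup : rp (fun i => (D.w σ i : ℝ) / D.r) (Rm ((n + 1) * m) (m + 3) (e τ)) j = M := by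
    rw [hpair] at hatt
    exact mul_right_cancel₀ hr.ne' hatt
  rw [← hup]
  have hn0 : (0 : ℝ) ≤ n := by positivity
  obtain ⟨-, h2, h3, h4, h5, h6⟩ := hV σ
  obtain ⟨h7, h8⟩ := vertex_data _ _ (-1) (e σ) _ (hv σ)
  by_cases hj : j = (e τ).2
  · subst hj
    rw [rp_self]
    by_cases hi : (e τ).1 = (e σ).1
    · rw [hi, h8]; linarith
    · have := (h6 _ hi).2
      push_cast
      exact this
  · rw [rp_ne _ _ _ _ _ hj]
    by_cases hi : (e τ).1.succAbove j = (e σ).1
    · rw [hi]; push_cast; exact h2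
    · by_cases hi2 : (e τ).1.succAbove j = (e σ).1.succAbove (e σ).2
      · rw [hi2]; push_cast; exact h4
      · rw [h7 _ hi hi2]; linarith

end Pool.Agent.Y385.TS
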