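import Pool.Agent.Helper774.KSing.Main

/-!
General facts on the combinatorial data of simplicial toric Fano varieties: a linear functional attains its
maximum on the moment polytope at a vertex, the polytope is bounded, primitive vectors are columns of
unimodular matrices.
-/

noncomputable section

namespace Pool.Agent.Y385.TS

open Pool.Agent.Helper774.KSing

variable {n : ℕ}

/-- A primitive vector is a column of a unimodular matrix. -/
theorem exists_unimodular (v u : Fin (n + 1) → ℤ) (h : ∑ i, u i * v i = 1) :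
    ∃ (Em Rm : Matrix (Fin (n + 1)) (Fin (n + 1)) ℤ) (i : Fin (n + 1)), Em * Rm = 1 ∧
      ∀ l, Rm l i = v l := by
  let φ : (Fin (n + 1) → ℤ) →ₗ[ℤ] ℤ :=
    { toFun := fun x => ∑ i, u i * x i
      map_add' := fun x y => by
        simp only [Pi.add_apply, mul_add, Finset.sum_add_distrib]
      map_smul' := fun c x => by
        simp only [Pi.smul_apply, smul_eq_mul, RingHom.id_apply, Finset.mul_sum]
        exact Finset.sum_congr rfl fun i _ => by ring }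
  have hφv : φ v = 1 := h
  let N : Submodule ℤ (Fin (n + 1) → ℤ) := LinearMap.ker φ
  obtain ⟨k, b⟩ := Submodule.basisOfPid (Pi.basisFun ℤ (Fin (n + 1))) N
  let c : Module.Basis (Fin (k + 1)) ℤ (Fin (n + 1) → ℤ) := Module.Basis.mkFinCons v b
    (by
      intro c x hx hcx
      have h1 : φ (c • v + x) = 0 := by rw [hcx, map_zero]
      rw [map_add, map_smul, hφv, LinearMap.mem_ker.1 hx] at h1
      simpa using h1)
    (by
      intro z
      refine ⟨-φ z, ?_⟩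
      rw [LinearMap.mem_ker, map_add, map_smul, hφv]
      simp)
  have hk : k = n := by
    have h1 := Module.finrank_eq_card_basis c
    rw [Module.finrank_fin_fun, Fintype.card_fin] at h1
    omega
  subst hk
  refine ⟨c.toMatrix (Pi.basisFun ℤ (Fin (k + 1))), (Pi.basisFun ℤ (Fin (k + 1))).toMatrix c, 0,
    Module.Basis.toMatrix_mul_toMatrix_flip _ _, fun l => ?_⟩
  rw [Module.Basis.toMatrix_apply, Pi.basisFun_repr]
  have : c 0 = v := by
    simp [c]
  rw [this]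

/-- Real pairing of a point with a column. -/
def rp (p : Fin n → ℝ) (R : Matrix (Fin n) (Fin n) ℤ) (j : Fin n) : ℝ :=
  ∑ i, p i * ((R i j : ℤ) : ℝ)

theorem rp_cast (u : Fin n → ℤ) (R : Matrix (Fin n) (Fin n) ℤ) (j : Fin n) :
    rp (fun i => (u i : ℝ)) R j = ((Matrix.vecMul u R j : ℤ) : ℝ) := by
  simp [rp, Matrix.vecMul, dotProduct]

theorem exists_coeff (R : Matrix (Fin n) (Fin n) ℤ) (hR : R.det ≠ 0) (c : Fin n → ℝ) :
    ∃ l : Fin n → ℝ, ∀ p : Fin n → ℝ, ∑ i, p i * c i = ∑ j, l j * rp p R j := by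
  let Q : Matrix (Fin n) (Fin n) ℝ := R.map (Int.cast : ℤ → ℝ)
  have hQ : Q.det ≠ 0 := by
    have : Q.det = ((R.det : ℤ) : ℝ) := by
      have h := (Int.castRingHom ℝ).map_det R
      simpa using h.symm
    rw [this]
    exact_mod_cast hR
  obtain ⟨l, h1⟩ : ∃ l, Q.mulVec l = c := ⟨Q⁻¹.mulVec c, by
    rw [Matrix.mulVec_mulVec, Matrix.mul_nonsing_inv Q (isUnit_iff_ne_zero.2 hQ), Matrix.one_mulVec]⟩
  refine ⟨l, fun p => ?_⟩
  rw [← h1]
  simp only [rp, Matrix.mulVec, dotProduct, Finset.mul_sum]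
  rw [Finset.sum_comm]
  refine Finset.sum_congr rfl fun j _ => Finset.sum_congr rfl fun i _ => ?_
  simp only [Q, Matrix.map_apply]
  ring

/-- A linear functional attains its maximum on the polytope at a vertex. -/
theorem le_vertex (D : SData n) (c : Fin n → ℝ) :
    ∃ σ, ∀ p ∈ D.P, (D.r : ℝ) * ∑ i, p i * c i ≤ ∑ i, (D.w σ i : ℝ) * c i := by
  have := D.ne
  obtain ⟨σ, hσ⟩ := Finite.exists_max (fun σ : D.ι => ∑ i, (D.w σ i : ℝ) * c i)
  refine ⟨σ, fun p hp => ?_⟩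
  obtain ⟨l, hl⟩ := exists_coeff (D.R σ) (D.det_ne σ) c
  have hself : ∀ j, rp (fun i => (D.w σ i : ℝ)) (D.R σ) j = -(D.r : ℝ) := by
    intro j
    rw [rp_cast, D.w_self]
    push_cast
    ring
  have hneg : ∀ j, l j ≤ 0 := by
    intro j
    obtain ⟨τ, h1, h2⟩ := D.nbr σ j
    have h3 := hσ τ
    rw [hl, hl] at h3
    have h4 : ∀ k, k ≠ j → rp (fun i => (D.w τ i : ℝ)) (D.R σ) k = -(D.r : ℝ) := by
      intro k hk
      rw [rp_cast, h1 k hk]
      push_cast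
      ring
    have h5 : -(D.r : ℝ) < rp (fun i => (D.w τ i : ℝ)) (D.R σ) j := by
      rw [rp_cast]
      have h6 := lt_of_le_of_ne (D.vert τ σ j) (Ne.symm h2)
      exact_mod_cast h6
    have h7 : ∑ k, l k * rp (fun i => (D.w τ i : ℝ)) (D.R σ) k -
        ∑ k, l k * rp (fun i => (D.w σ i : ℝ)) (D.R σ) k =
        l j * (rp (fun i => (D.w τ i : ℝ)) (D.R σ) j + D.r) := by
      rw [← Finset.sum_sub_distrib, Finset.sum_eq_single j]
      · rw [hself]; ring
      · intro k _ hk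
        rw [h4 k hk, hself]; ring
      · intro h; exact absurd (Finset.mem_univ j) h
    by_contra hc
    push Not at hc
    have h8 : 0 < l j * (rp (fun i => (D.w τ i : ℝ)) (D.R σ) j + D.r) :=
      mul_pos hc (by linarith)
    linarith
  rw [hl, hl, Finset.mul_sum]
  refine Finset.sum_le_sum fun j _ => ?_
  rw [hself]
  have h1 : -1 ≤ rp p (D.R σ) j := hp σ j
  have hr : (0 : ℝ) ≤ D.r := by positivity
  have h2 : l j * rp p (D.R σ) j ≤ l j * (-1) := mul_le_mul_of_nonpos_left h1 (hneg j)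
  calc (D.r : ℝ) * (l j * rp p (D.R σ) j) ≤ D.r * (l j * (-1)) := mul_le_mul_of_nonneg_left h2 hr
    _ = l j * -(D.r : ℝ) := by ring

theorem P_bounded (D : SData n) : Bornology.IsBounded D.P := by
  have hr : (0 : ℝ) < D.r := by exact_mod_cast D.r_pos
  choose σ hσ using fun c : Fin n → ℝ => le_vertex D c
  let C : ℝ := ∑ i, (|∑ k, (D.w (σ (Pi.single i 1)) k : ℝ) * (Pi.single i 1 : Fin n → ℝ) k| +
    |∑ k, (D.w (σ (Pi.single i (-1))) k : ℝ) * (Pi.single i (-1) : Fin n → ℝ) k|)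
  rw [isBounded_iff_forall_norm_le]
  have hC : 0 ≤ C := Finset.sum_nonneg fun i _ => by positivity
  refine ⟨C / D.r, fun p hp => ?_⟩
  rw [pi_norm_le_iff_of_nonneg (by positivity)]
  intro i
  have h1 := hσ (Pi.single i 1) p hp
  have h2 := hσ (Pi.single i (-1)) p hp
  have e : ∀ x : ℝ, ∑ k, p k * (Pi.single i x : Fin n → ℝ) k = p i * x := by
    intro x
    rw [Finset.sum_eq_single i]
    · rw [Pi.single_eq_same]
    · intro k _ hk
      rw [Pi.single_eq_of_ne hk, mul_zero]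
    · intro h; exact absurd (Finset.mem_univ i) h
  rw [e] at h1 h2
  have h3 : |∑ k, (D.w (σ (Pi.single i 1)) k : ℝ) * (Pi.single i 1 : Fin n → ℝ) k| +
    |∑ k, (D.w (σ (Pi.single i (-1))) k : ℝ) * (Pi.single i (-1) : Fin n → ℝ) k| ≤ C :=
    Finset.single_le_sum (f := fun i => |∑ k, (D.w (σ (Pi.single i 1)) k : ℝ) *
      (Pi.single i 1 : Fin n → ℝ) k| + |∑ k, (D.w (σ (Pi.single i (-1))) k : ℝ) *
      (Pi.single i (-1) : Fin n → ℝ) k|) (fun i _ => by positivity) (Finset.mem_univ i)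
  have h4 := le_abs_self (∑ k, (D.w (σ (Pi.single i 1)) k : ℝ) * (Pi.single i 1 : Fin n → ℝ) k)
  have h5 := le_abs_self (∑ k, (D.w (σ (Pi.single i (-1))) k : ℝ) * (Pi.single i (-1) : Fin n → ℝ) k)
  have h6 := abs_nonneg (∑ k, (D.w (σ (Pi.single i 1)) k : ℝ) * (Pi.single i 1 : Fin n → ℝ) k)
  have h7 := abs_nonneg (∑ k, (D.w (σ (Pi.single i (-1))) k : ℝ) * (Pi.single i (-1) : Fin n → ℝ) k)
  rw [Real.norm_eq_abs, le_div_iff₀ hr]
  rcases abs_cases (p i) with ⟨h, _⟩ | ⟨h, _⟩ <;> rw [h] <;> nlinarith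

/-- Data with barycentre zero: the invariant `1 / (1 + M)` with `M` the largest pairing of a vertex with
a ray. -/
theorem exists_good (D : SData (n + 1)) (hbar : ∀ i, ∫ p in D.P, p i = 0) :
    ∃ M : ℝ, Good D M ∧ (∀ σ τ j, ((Matrix.vecMul (D.w σ) (D.R τ) j : ℤ) : ℝ) ≤ M * D.r) ∧
      ∃ σ τ j, ((Matrix.vecMul (D.w σ) (D.R τ) j : ℤ) : ℝ) = M * D.r := by
  have := D.ne
  have hr : (0 : ℝ) < D.r := by exact_mod_cast D.r_pos
  obtain ⟨⟨σ, τ, j⟩, hmax⟩ := Finite.exists_max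
    (fun x : D.ι × D.ι × Fin (n + 1) => Matrix.vecMul (D.w x.1) (D.R x.2.1) x.2.2)
  have hM : ∀ σ' τ' j', ((Matrix.vecMul (D.w σ') (D.R τ') j' : ℤ) : ℝ) ≤
      ((Matrix.vecMul (D.w σ) (D.R τ) j : ℤ) : ℝ) / D.r * D.r := by
    intro σ' τ' j'
    rw [div_mul_cancel₀ _ hr.ne']
    have := hmax (σ', τ', j')
    exact_mod_cast this
  refine ⟨((Matrix.vecMul (D.w σ) (D.R τ) j : ℤ) : ℝ) / D.r, ⟨P_bounded D, hbar, ?_, ?_⟩, hM,
    σ, τ, j, (div_mul_cancel₀ _ hr.ne').symm⟩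
  · intro k u hk hu τ' j'
    have hk0 : (0 : ℝ) < k := by exact_mod_cast hk
    obtain ⟨σ', hσ'⟩ := le_vertex D (fun i => ((D.R τ' i j' : ℤ) : ℝ))
    have hp : (fun i => (u i : ℝ) / k) ∈ D.P := by
      intro ρ l
      have h1 := hu ρ l
      have h2 : ∑ i, (u i : ℝ) / k * ((D.R ρ i l : ℤ) : ℝ) =
          ((Matrix.vecMul u (D.R ρ) l : ℤ) : ℝ) / k := by
        rw [← rp_cast, rp, Finset.sum_div]
        exact Finset.sum_congr rfl fun i _ => by ring
      rw [h2, le_div_iff₀ hk0]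
      have h3 : -(k : ℝ) ≤ ((Matrix.vecMul u (D.R ρ) l : ℤ) : ℝ) := by exact_mod_cast h1
      linarith
    have h4 := hσ' _ hp
    have h5 : ∑ i, (u i : ℝ) / k * ((D.R τ' i j' : ℤ) : ℝ) =
        ((Matrix.vecMul u (D.R τ') j' : ℤ) : ℝ) / k := by
      rw [← rp_cast, rp, Finset.sum_div]
      exact Finset.sum_congr rfl fun i _ => by ring
    have h6 : ∑ i, (D.w σ' i : ℝ) * ((D.R τ' i j' : ℤ) : ℝ) =
        ((Matrix.vecMul (D.w σ') (D.R τ') j' : ℤ) : ℝ) := by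
      rw [← rp_cast, rp]
    rw [h5, h6] at h4
    have h7 := hM σ' τ' j'
    have h8 := h4.trans h7
    have h9 : (D.r : ℝ) * (((Matrix.vecMul u (D.R τ') j' : ℤ) : ℝ) / k) =
        (((Matrix.vecMul u (D.R τ') j' : ℤ) : ℝ) / k) * D.r := mul_comm _ _
    rw [h9] at h8
    have h10 := le_of_mul_le_mul_right h8 hr
    rwa [div_le_iff₀ hk0] at h10
  · obtain ⟨u, hu⟩ := D.prim τ j
    obtain ⟨Em, Rm, i, h1, h2⟩ := exists_unimodular (fun l => D.R τ l j) u hu
    refine ⟨Em, Rm, i, τ, j, D.r, D.w σ, h1, h2, D.r_pos, fun ρ l => D.vert σ ρ l, ?_⟩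
    rw [div_mul_cancel₀ _ hr.ne']

/-- From rays and maximal cones to the data: it is enough to control the (real) vertices. -/
theorem exists_data (hn : 0 < n) {ι : Type} [Finite ι] [Nonempty ι] (R : ι → Matrix (Fin n) (Fin n) ℤ)
    (hdet : ∀ σ, (R σ).det ≠ 0) (hprim : ∀ σ j, ∃ u, Matrix.vecMul u (R σ) j = 1)
    (hvert : ∀ σ (p : Fin n → ℝ), (∀ j, rp p (R σ) j = -1) → ∀ τ j, -1 ≤ rp p (R τ) j ∧
      (rp p (R τ) j = -1 → ∃ k, ∀ i, R τ i j = R σ i k))
    (hnbr : ∀ σ i, ∃ τ, ∀ p : Fin n → ℝ, (∀ j, rp p (R τ) j = -1) →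
      (∀ j, j ≠ i → rp p (R σ) j = -1) ∧ rp p (R σ) i ≠ -1) :
    ∃ D : SData n, D.ι = ι ∧ (∃ e : D.ι ≃ ι, ∀ σ, D.R σ = R (e σ)) := by
  have := Fintype.ofFinite ι
  let r : ℕ := ∏ σ, (R σ).det.natAbs
  have hr : 1 ≤ r := Nat.one_le_iff_ne_zero.2
    (Finset.prod_ne_zero_iff.2 fun σ _ => Int.natAbs_ne_zero.2 (hdet σ))
  have hdvd : ∀ σ, (R σ).det ∣ (r : ℤ) := by
    intro σ
    rw [← Int.natAbs_dvd_natAbs, Int.natAbs_natCast]
    exact Finset.dvd_prod_of_mem _ (Finset.mem_univ σ)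
  choose q hq using hdvd
  let w : ι → Fin n → ℤ := fun σ => Matrix.vecMul (fun _ => -q σ) (R σ).adjugate
  have hw : ∀ σ j, Matrix.vecMul (w σ) (R σ) j = -(r : ℤ) := by
    intro σ j
    simp only [w]
    rw [Matrix.vecMul_vecMul, Matrix.adjugate_mul, Matrix.vecMul_smul, Matrix.vecMul_one,
      Pi.smul_apply, smul_eq_mul, hq σ]
    ring
  have hr' : (0 : ℝ) < r := by exact_mod_cast hr
  have hwp : ∀ σ (Q : Matrix (Fin n) (Fin n) ℤ) j, rp (fun i => (w σ i : ℝ) / r) Q j =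
      ((Matrix.vecMul (w σ) Q j : ℤ) : ℝ) / r := by
    intro σ Q j
    rw [← rp_cast, rp, rp, Finset.sum_div]
    exact Finset.sum_congr rfl fun i _ => by ring
  have hv : ∀ σ j, rp (fun i => (w σ i : ℝ) / r) (R σ) j = -1 := by
    intro σ j
    rw [hwp, hw, div_eq_iff hr'.ne']
    push_cast
    ring
  have hiff : ∀ σ τ j, rp (fun i => (w σ i : ℝ) / r) (R τ) j = -1 ↔
      Matrix.vecMul (w σ) (R τ) j = -(r : ℤ) := by
    intro σ τ j
    rw [hwp, div_eq_iff hr'.ne']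
    constructor
    · intro h
      have h1 : ((Matrix.vecMul (w σ) (R τ) j : ℤ) : ℝ) = ((-(r : ℤ) : ℤ) : ℝ) := by
        rw [h]; push_cast; ring
      exact_mod_cast h1
    · intro h
      rw [h]; push_cast; ring
  refine ⟨{ pos := hn, ι := ι, R := R, det_ne := hdet, prim := hprim, r := r, r_pos := hr, w := w,
            w_self := hw, vert := ?_, strict := ?_, nbr := ?_, ne := inferInstance }, rfl,
            Equiv.refl _, fun _ => rfl⟩
  · intro σ τ j
    have h1 := (hvert σ _ (hv σ) τ j).1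
    rw [hwp, le_div_iff₀ hr'] at h1
    have h2 : ((-(r : ℤ) : ℤ) : ℝ) ≤ ((Matrix.vecMul (w σ) (R τ) j : ℤ) : ℝ) := by
      push_cast
      push_cast at h1
      linarith
    exact_mod_cast h2
  · intro σ τ j h
    exact (hvert σ _ (hv σ) τ j).2 ((hiff σ τ j).2 h)
  · intro σ i
    obtain ⟨τ, hτ⟩ := hnbr σ i
    obtain ⟨h1, h2⟩ := hτ _ (hv τ)
    exact ⟨τ, fun j hj => (hiff τ σ j).1 (h1 j hj), fun h => h2 ((hiff τ σ i).2 h)⟩

end Pool.Agent.Y385.TS
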